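import Pool.Agent.H174.GP.StA

/-! Project GP (helper174), leaf toPsurj: surjectivity of `toP`. -/

open MeasureTheory ProbabilityTheory Finset

namespace Pool.Agent.H105.GP174

open Pool.Agent.H174.GP

/-- An antitone function is the function of the tail sums of another one. -/
theorem tails (d : ℕ) : ∀ u : Fin d → ℕ, Antitone u →
    ∃ g : Fin d → ℕ, ∀ i, ∑ l ∈ univ.filter (fun l : Fin d => i ≤ l), g l = u i := by
  induction d with
  | zero => intro u _; exact ⟨u, fun i => i.elim0⟩
  | succ d ih =>
    intro u hu
    obtain ⟨g', hg'⟩ := ih (fun i => u i.succ) (fun i j h => hu (Fin.succ_le_succ_iff.2 h))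
    have hS : ∑ l, g' l ≤ u 0 := by
      rcases d with _ | d
      · simp
      · have h2 := hg' 0
        have h1 : univ.filter (fun l : Fin (d+1) => (0 : Fin (d+1)) ≤ l) = univ := by
          ext; simp
        rw [h1] at h2
        rw [h2]
        exact hu (Fin.zero_le _)
    refine ⟨Fin.cons (u 0 - ∑ l, g' l) g', fun i => ?_⟩
    rw [Finset.sum_filter, Fin.sum_univ_succ]
    refine Fin.cases ?_ (fun i => ?_) i
    · simp only [le_refl, if_true, Fin.zero_le, Fin.cons_zero, Fin.cons_succ]
      omega
    · have h0 : ¬ (i.succ ≤ (0 : Fin (d+1))) := by simp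
      simp only [h0, if_false, Fin.cons_succ, Fin.succ_le_succ_iff, zero_add]
      rw [← Finset.sum_filter]
      exact hg' i

/-- A multiset of cardinality `d` is listed by an antitone function. -/
theorem listing (d : ℕ) (T : Multiset ℕ) (hT : Multiset.card T = d) :
    ∃ t : Fin d → ℕ, Antitone t ∧ (univ : Finset (Fin d)).val.map t = T := by
  subst hT
  have hl : (T.sort (· ≥ ·)).length = Multiset.card T := Multiset.length_sort (· ≥ ·)
  refine ⟨fun i => (T.sort (· ≥ ·)).get (Fin.cast hl.symm i), ?_, ?_⟩
  · intro i j hij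
    have hs : (T.sort (· ≥ ·)).Pairwise (· ≥ ·) := Multiset.pairwise_sort T (· ≥ ·)
    rcases eq_or_lt_of_le hij with h | h
    · rw [h]
    · exact List.pairwise_iff_get.1 hs _ _ (by simpa using h)
  · rw [Fin.univ_val_map]
    have h1 : List.ofFn (fun i : Fin (Multiset.card T) => (T.sort (· ≥ ·)).get (Fin.cast hl.symm i)) =
        T.sort (· ≥ ·) := by
      apply List.ext_get
      · simp
      · intro n h1 h2
        simp
    rw [h1]
    exact Multiset.sort_eq T (· ≥ ·)

/-- A multiset with elements in `{1, ..., d}`. -/
theorem small (d : ℕ) (R : Multiset ℕ) (h1 : ∀ x ∈ R, 0 < x) (h2 : ∀ x ∈ R, x ≤ d) :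
    ∑ l : Fin d, Multiset.replicate (R.count ((l : ℕ) + 1)) ((l : ℕ) + 1) = R := by
  ext a
  rw [Multiset.count_sum']
  simp only [Multiset.count_replicate]
  by_cases ha : a ∈ R
  · have ha1 := h1 a ha
    have ha2 := h2 a ha
    rw [Finset.sum_eq_single (⟨a - 1, by omega⟩ : Fin d)]
    · have : a - 1 + 1 = a := by omega
      simp [this]
    · intro b _ hb
      rw [if_neg]
      intro hc
      apply hb
      ext
      simp only
      omega
    · intro h
      exact absurd (mem_univ _) h
  · rw [Multiset.count_eq_zero_of_notMem ha]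
    apply Finset.sum_eq_zero
    intro b _
    split_ifs with hb
    · rw [hb]
      exact Multiset.count_eq_zero_of_notMem ha
    · rfl

theorem card_split (d : ℕ) (s : Multiset ℕ) :
    Multiset.card (s.filter (fun x => d ≤ x)) = Multiset.card (s.filter (fun x => d < x)) + s.count d := by
  induction s using Multiset.induction_on with
  | empty => simp
  | cons a s ih =>
    rw [Multiset.filter_cons, Multiset.filter_cons, Multiset.card_add, Multiset.card_add, ih, Multiset.count_cons]
    by_cases h1 : d ≤ a
    · by_cases h2 : d < a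
      · have h3 : ¬ (d = a) := by omega
        simp [h1, h2, h3]; omega
      · have h3 : d = a := by omega
        simp [h3]; omega
    · have h2 : ¬ (d < a) := by omega
      have h3 : ¬ (d = a) := by omega
      simp [h1, h2, h3]

theorem gp_topsurj : Pool.Agent.H174.GP.S_toPsurj := by
  intro s hs
  classical
  -- the Durfee size
  obtain ⟨d, hd1, hd2⟩ : ∃ d, d ≤ Multiset.card (s.filter (fun x => d ≤ x)) ∧
      Multiset.card (s.filter (fun x => d < x)) ≤ d := by
    have h0 : (fun r => r ≤ Multiset.card (s.filter (fun x => r ≤ x)))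
        (Nat.findGreatest (fun r => r ≤ Multiset.card (s.filter (fun x => r ≤ x))) (Multiset.card s)) :=
      Nat.findGreatest_spec (P := fun r => r ≤ Multiset.card (s.filter (fun x => r ≤ x)))
        (Nat.zero_le _) (Nat.zero_le _)
    refine ⟨_, h0, ?_⟩
    set d := Nat.findGreatest (fun r => r ≤ Multiset.card (s.filter (fun x => r ≤ x))) (Multiset.card s) with hd
    by_contra hcon
    push Not at hcon
    have h3 : d + 1 ≤ Multiset.card s := le_trans hcon (Multiset.card_le_card (Multiset.filter_le _ _))
    exact Nat.findGreatest_is_greatest (P := fun r => r ≤ Multiset.card (s.filter (fun x => r ≤ x)))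
      (k := d + 1) (n := Multiset.card s) (by omega) h3 hcon
  rw [card_split] at hd1
  set A := s.filter (fun x => d < x) with hA
  set B := s.filter (fun x => ¬ (d < x)) with hB
  have hAB : A + B = s := Multiset.filter_add_not _ _
  have hcB : B.count d = s.count d := by
    rw [hB, Multiset.count_filter_of_pos (p := fun x => ¬ (d < x)) (lt_irrefl d)]
  have hle : Multiset.replicate (d - Multiset.card A) d ≤ B := by
    rw [← Multiset.le_count_iff_replicate_le, hcB]
    omega
  set Q := Multiset.replicate (d - Multiset.card A) d with hQ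
  obtain ⟨t, ht, hT⟩ := listing d (A + Q) (by rw [Multiset.card_add, hQ, Multiset.card_replicate]; omega)
  have htd : ∀ i, d ≤ t i := by
    intro i
    have h1 : t i ∈ A + Q := by
      rw [← hT]
      exact Multiset.mem_map_of_mem t (Finset.mem_univ i)
    rcases Multiset.mem_add.1 h1 with h | h
    · exact (Multiset.mem_filter.1 h).2.le
    · rw [Multiset.eq_of_mem_replicate h]
  obtain ⟨g, hg⟩ := tails d (fun i => t i - d) (fun i j hij => by
    have := ht hij
    simp only
    omega)
  refine ⟨d, g, fun l => (B - Q).count ((l : ℕ) + 1), ?_⟩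
  have hsub : B - Q ≤ B := Multiset.sub_le_self B Q
  have h1 : ∀ x ∈ B - Q, 0 < x := fun x hx =>
    hs x (Multiset.mem_of_le (Multiset.filter_le _ _) (Multiset.mem_of_le hsub hx))
  have h2 : ∀ x ∈ B - Q, x ≤ d := fun x hx =>
    not_lt.1 (Multiset.mem_filter.1 (Multiset.mem_of_le hsub hx)).2
  unfold toP
  rw [small d (B - Q) h1 h2]
  have h3 : topP d g = t := by
    funext i
    unfold topP
    rw [hg i]
    have := htd i
    omega
  rw [h3, hT, add_assoc, add_tsub_cancel_of_le hle, hAB]

end Pool.Agent.H105.GP174

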